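import Pool.Agent.H80.SH.Targets

/-!
# LOW: the bound for the refutations of a good formula
-/

set_option autoImplicit false

namespace Pool.Agent.H42.SH

open Finset Pool.Agent.H80.SH

lemma chain_nil {X ι : Type} [Fintype X] [DecidableEq X] [Fintype ι] (V : ι → Finset X)
    (g H n : ℕ) (hX : Fintype.card X = 2 ^ n) (hV : ∀ j, H * (V j).card < 2 ^ n) (l : List ι)
    (h : Chain V g H univ l) : l = [] := by
  induction l with
  | nil => rfl
  | cons c l ih =>
    obtain ⟨h1, -, h3⟩ := h
    have hl := ih h1
    subst hl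
    exfalso
    unfold dense cut at h3
    rw [Finset.mem_filter] at h3
    have h4 := h3.2
    have h5 : (univ.filter fun x : X => ∀ c ∈ ([] : List ι), x ∉ V c) = univ := by
      apply Finset.filter_true_of_mem
      intro x _ c hc
      exact absurd hc (List.not_mem_nil)
    rw [h5, Finset.univ_inter, Finset.card_univ, hX] at h4
    exact absurd h4 (not_le.2 (hV c))

theorem low (hCLO : T_CLO) (hSUM : T_SUM) : T_LOW := by
  intro X ι _ _ _ _ V L S D n k q g H T M el R hG hX hV hg hk hS hM hH N hN
  choose cl hcl1 hcl2 using fun u : Fin S => hCLO X ι V L g H T M hG (R.A u) (R.mem u)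
  obtain ⟨r, hr1, hr2⟩ := R.root
  have hnil : cl r = [] := by
    refine chain_nil V g H n hX hV _ ?_
    have := hcl1 r
    rwa [hr1] at this
  have hcut : cut V (R.A r) (cl r) = univ := by
    rw [hnil, hr1]
    unfold cut
    ext x
    simp
  have h1 := hSUM X ι V L S D n k q g H T M el R cl hG hcl1 hcl2 hg hk hS hM hH N r (by omega)
    (by
      rw [hcut, Finset.card_univ, hX]
      exact Nat.pow_le_pow_right (by norm_num) (by omega))
  refine h1.trans ?_
  exact Nat.mul_le_mul_left _ (Nat.mul_le_mul_left _ hr2)

end Pool.Agent.H42.SH
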