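import Pool.Agent.H42.AX.MVX
import Pool.Agent.H33.SN.IBP

/-!
# Row MVI of the board hlf from row MVX of the board axs (helper42), MP_2697e3_an
-/

set_option autoImplicit false

namespace Pool.Agent.H42.SH

open Pool.Agent.H87.SN Pool.Agent.H87.SH Pool.Agent.H87.AX
open MeasureTheory Metric Set Filter Topology
open scoped ContDiff RealInnerProductSpace ENNReal

theorem MVI_of_MVX (h : T_MVX) : T_MVI := by
  intro n
  obtain ⟨C, hC, hh⟩ := h n
  refine ⟨C, hC, ?_⟩
  intro f x r Λ hr hf hf0 hΛ hΛr hl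
  have h1 := hh f (fun _ _ => 0) x r Λ 0 0 hr hf (fun _ => contDiffOn_const) hf0 hΛ hΛr le_rfl
    le_rfl (fun y _ => by simp) (fun y hy => by
      have h2 := hl y hy
      simpa using h2)
  simpa using h1

theorem pf_MVI (hPHI : T_PHI) (hGRN : T_GRN) : T_MVI :=
  MVI_of_MVX (Pool.Agent.H42.AX.pf_MVX hPHI Pool.Agent.H33.SN.pf_IBP hGRN)

end Pool.Agent.H42.SH
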